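import Pool.Agent.Lib.MP_c7af3c_ag.T2.IfaceB

/-!
# MP_c7af3c_ag, project T2: normal forms of the configuration, transport (helper32)

Row NORM of T2/IfaceB.lean: the classification of the conics with a point (QCL) and the four
normal forms of the sextic (NORM1, NORM2, NORM3, NORM4) give the normal form of `(q, f, y)`.
-/

set_option autoImplicit false

namespace Pool.Agent.T2.H32

open MvPolynomial Pool.Agent.Gen Pool.Agent.Sharp Pool.Agent.Edge Pool.Agent.T2
open Pool.Agent.Sharp.H75 (dco DG af)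
open Pool.Agent.Edge.H65 (ssub)

section

variable {K : Type} [Field K]

/-- the product of two frames -/
def mm (Q P : Fin 3 → Fin 3 → K) : Fin 3 → Fin 3 → K := fun i j => ∑ k, Q i k * P k j

theorem ssub_ssub (Q P : Fin 3 → Fin 3 → K) (F : MvPolynomial (Fin 3) K) :
    ssub Q (ssub P F) = ssub (mm Q P) F := by
  have h : (ssub Q).comp (ssub P) = ssub (mm Q P) := by
    refine MvPolynomial.algHom_ext fun j => ?_
    rw [AlgHom.comp_apply, H65.ssub_X, H65.ssub_X, map_sum]
    simp only [map_mul, H65.ssub_C, H65.ssub_X, mm, map_sum, Finset.mul_sum, Finset.sum_mul]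
    rw [Finset.sum_comm]
    refine Finset.sum_congr rfl fun i _ => Finset.sum_congr rfl fun k _ => ?_
    ring
  exact DFunLike.congr_fun h F

/-- the unit frame -/
def one3 : Fin 3 → Fin 3 → K := fun i j => if i = j then 1 else 0

theorem ssub_one (F : MvPolynomial (Fin 3) K) : ssub (one3 : Fin 3 → Fin 3 → K) F = F := by
  have h : ssub (one3 : Fin 3 → Fin 3 → K) = AlgHom.id K (MvPolynomial (Fin 3) K) := by
    refine MvPolynomial.algHom_ext fun j => ?_
    rw [H65.ssub_X, AlgHom.id_apply, Finset.sum_eq_single j]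
    · simp [one3]
    · intro i _ hij
      simp [one3, hij]
    · intro h; exact absurd (Finset.mem_univ _) h
  rw [h, AlgHom.id_apply]

theorem exists_inv {g : Fin 3 → Fin 3 → K} (hg : LinearIndependent K g) :
    ∃ h : Fin 3 → Fin 3 → K, mm g h = one3 ∧ mm h g = one3 := by
  have h1 : IsUnit (Matrix.of g) := Matrix.linearIndependent_rows_iff_isUnit.1 hg
  obtain ⟨u, hu⟩ := h1
  refine ⟨fun i j => (↑u⁻¹ : Matrix (Fin 3) (Fin 3) K) i j, ?_, ?_⟩
  · have h2 : Matrix.of g * (↑u⁻¹ : Matrix (Fin 3) (Fin 3) K) = 1 := by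
      rw [← hu]
      exact u.mul_inv
    funext i j
    have h3 := congrFun (congrFun h2 i) j
    rw [Matrix.mul_apply, Matrix.one_apply] at h3
    exact h3
  · have h2 : (↑u⁻¹ : Matrix (Fin 3) (Fin 3) K) * Matrix.of g = 1 := by
      rw [← hu]
      exact u.inv_mul
    funext i j
    have h3 := congrFun (congrFun h2 i) j
    rw [Matrix.mul_apply, Matrix.one_apply] at h3
    exact h3

theorem li_mm {g g' : Fin 3 → Fin 3 → K} (hg : LinearIndependent K g)
    (hg' : LinearIndependent K g') : LinearIndependent K (mm g' g) := by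
  have h1 : IsUnit (Matrix.of g) := Matrix.linearIndependent_rows_iff_isUnit.1 hg
  have h2 : IsUnit (Matrix.of g') := Matrix.linearIndependent_rows_iff_isUnit.1 hg'
  have h3 : IsUnit (Matrix.of g' * Matrix.of g) := h2.mul h1
  have h4 := Matrix.linearIndependent_rows_iff_isUnit.2 h3
  have h5 : (Matrix.of g' * Matrix.of g).row = mm g' g := by
    funext i j
    rw [Matrix.row_apply, Matrix.mul_apply]
    rfl
  rw [h5] at h4
  exact h4

theorem eval_ssub3 (P : Fin 3 → Fin 3 → K) (F : MvPolynomial (Fin 3) K) (b : Fin 3 → K) :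
    eval b (ssub P F) = eval (fun j => ∑ i, b i * P i j) F := by
  induction F using MvPolynomial.induction_on with
  | C a => rw [H65.ssub_C, eval_C, eval_C]
  | add F G hF hG => rw [map_add, map_add, map_add, hF, hG]
  | mul_X F j hF =>
    rw [map_mul, map_mul, map_mul, hF, eval_X, H65.ssub_X, map_sum]
    congr 1
    refine Finset.sum_congr rfl fun i _ => ?_
    rw [map_mul, eval_C, eval_X, mul_comm]

theorem coeff_eval {f : MvPolynomial (Fin 3) K} (hf : f.IsHomogeneous 6) :
    coeff (Finsupp.single 0 6) f = eval ![1, 0, 0] f := by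
  classical
  rw [eval_eq']
  have h : ∀ d ∈ f.support, d ≠ Finsupp.single 0 6 →
      coeff d f * ∏ i, (![1, 0, 0] : Fin 3 → K) i ^ d i = 0 := by
    intro d hd hne
    rw [Fin.prod_univ_three]
    have hdeg : d.degree = 6 := by
      by_contra hn
      exact mem_support_iff.1 hd (hf.coeff_eq_zero hn)
    rw [Finsupp.degree_eq_sum, Fin.sum_univ_three] at hdeg
    by_cases h1 : d 1 = 0
    · by_cases h2 : d 2 = 0
      · exfalso
        apply hne
        ext i
        fin_cases i
        · simp; omega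
        · simpa using h1
        · simpa using h2
      · simp [h2]
    · simp [h1]
  by_cases hm : Finsupp.single 0 6 ∈ f.support
  · rw [Finset.sum_eq_single_of_mem _ hm h, Fin.prod_univ_three]
    simp
  · rw [Finset.sum_eq_zero, notMem_support_iff.1 hm]
    intro d hd
    refine h d hd ?_
    rintro rfl
    exact hm hd

/-! ### the matrices -/

/-- `L ↦ G⁻¹ L G`; `g` is the transpose of `G`, `h` is the inverse of `g` -/
def tr (g h : Fin 3 → Fin 3 → K) : (Fin 3 → Fin 3 → K) →ₗ[K] (Fin 3 → Fin 3 → K) where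
  toFun L j i := ∑ p, h p j * ∑ r, L p r * g i r
  map_add' L L' := by
    funext j i
    simp only [Pi.add_apply, add_mul, mul_add, Finset.sum_add_distrib]
  map_smul' c L := by
    funext j i
    simp only [Pi.smul_apply, smul_eq_mul, RingHom.id_apply, Finset.mul_sum]
    refine Finset.sum_congr rfl fun p _ => Finset.sum_congr rfl fun r _ => ?_
    ring

theorem tr_apply (g h L : Fin 3 → Fin 3 → K) (j i : Fin 3) :
    tr g h L j i = ∑ p, h p j * ∑ r, L p r * g i r := rfl

/-- `G L' = L G` -/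
theorem tr_eq {g h : Fin 3 → Fin 3 → K} (hgh : mm h g = one3) (L : Fin 3 → Fin 3 → K)
    (p i : Fin 3) : ∑ j, tr g h L j i * g j p = ∑ r, L p r * g i r := by
  simp only [tr_apply, Finset.sum_mul]
  rw [Finset.sum_comm]
  have h1 : ∀ p' : Fin 3, ∑ j, h p' j * (∑ r, L p' r * g i r) * g j p =
      (if p' = p then 1 else 0) * ∑ r, L p' r * g i r := by
    intro p'
    have h2 : mm h g p' p = one3 p' p := by rw [hgh]
    unfold mm one3 at h2
    rw [← h2, Finset.sum_mul]
    refine Finset.sum_congr rfl fun j _ => ?_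
    ring
  rw [Finset.sum_congr rfl fun p' _ => h1 p', Finset.sum_eq_single p]
  · rw [if_pos rfl, one_mul]
  · intro p' _ hp
    rw [if_neg hp, zero_mul]
  · intro h; exact absurd (Finset.mem_univ _) h

theorem tr_inj {g h : Fin 3 → Fin 3 → K} (hgh : mm h g = one3) (hgh' : mm g h = one3) :
    Function.Injective (tr g h) := by
  rw [← LinearMap.ker_eq_bot, LinearMap.ker_eq_bot']
  intro L hL
  funext p q
  have h1 : ∀ i, ∑ r, L p r * g i r = 0 := by
    intro i
    rw [← tr_eq hgh L p i, hL]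
    simp
  have h2 : ∑ i, h q i * ∑ r, L p r * g i r = L p q := by
    have h3 : ∀ r : Fin 3, ∑ i, h q i * (L p r * g i r) = (if q = r then 1 else 0) * L p r := by
      intro r
      have h4 : mm h g q r = one3 q r := by rw [hgh]
      unfold mm one3 at h4
      rw [← h4, Finset.sum_mul]
      refine Finset.sum_congr rfl fun j _ => ?_
      ring
    simp only [Finset.mul_sum]
    rw [Finset.sum_comm, Finset.sum_congr rfl fun r _ => h3 r, Finset.sum_eq_single q]
    · rw [if_pos rfl, one_mul]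
    · intro r _ hr
      rw [if_neg (Ne.symm hr), zero_mul]
    · intro h; exact absurd (Finset.mem_univ _) h
  rw [← h2]
  simp [h1]

/-- the action and the change of coordinates -/
theorem ssub_af {g L L' : Fin 3 → Fin 3 → K}
    (h : ∀ p i, ∑ j, L' j i * g j p = ∑ r, L p r * g i r) (F : MvPolynomial (Fin 3) K) :
    ssub g (af L F) = af L' (ssub g F) := by
  unfold af
  rw [map_sum]
  have h1 : ∀ j : Fin 3, H75.lf (L' j) * pderiv j (ssub g F) =
      ∑ p, H75.lf (L' j) * C (g j p) * ssub g (pderiv p F) := by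
    intro j
    rw [H65.pderiv_ssub, Finset.mul_sum]
    refine Finset.sum_congr rfl fun p _ => ?_
    ring
  rw [Finset.sum_congr rfl fun j _ => h1 j, Finset.sum_comm]
  refine Finset.sum_congr rfl fun p _ => ?_
  rw [← Finset.sum_mul, map_mul]
  congr 1
  unfold H75.lf
  rw [map_sum]
  simp only [map_mul, H65.ssub_C, H65.ssub_X, Finset.sum_mul, Finset.mul_sum]
  rw [Finset.sum_comm]
  conv_rhs => rw [Finset.sum_comm]
  refine Finset.sum_congr rfl fun i _ => ?_
  have h2 : ∑ r, C (L p r) * (C (g i r) * X i) =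
      (C (∑ r, L p r * g i r) * X i : MvPolynomial (Fin 3) K) := by
    rw [map_sum, Finset.sum_mul]
    refine Finset.sum_congr rfl fun r _ => ?_
    rw [map_mul, mul_assoc]
  have h3 : ∑ j, C (L' j i) * X i * C (g j p) =
      (C (∑ j, L' j i * g j p) * X i : MvPolynomial (Fin 3) K) := by
    rw [map_sum, Finset.sum_mul]
    refine Finset.sum_congr rfl fun r _ => ?_
    rw [map_mul]
    ring
  rw [h2, h3, h]

theorem af_C_mul (L : Fin 3 → Fin 3 → K) (a : K) (F : MvPolynomial (Fin 3) K) :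
    af L (C a * F) = C a * af L F := by
  unfold af
  rw [Finset.mul_sum]
  refine Finset.sum_congr rfl fun p _ => ?_
  rw [Derivation.leibniz, pderiv_C, smul_zero, add_zero, smul_eq_mul]
  ring

/-! ### the transport -/

/-- the space `M` in the new coordinates -/
theorem stb_tr {q q0 f : MvPolynomial (Fin 3) K} {y : Fin 3 → K}
    {M : Submodule K (Fin 3 → Fin 3 → K)} (hM : Stb q f y M) {g h : Fin 3 → Fin 3 → K}
    (hgh : mm h g = one3) (hgh' : mm g h = one3) (hy : y = g 0) {a : K} (ha : a ≠ 0)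
    (hq : ssub g q = C a * q0) : Stb q0 (ssub g f) ![1, 0, 0] (M.map (tr g h)) where
  two := by
    rw [← (Submodule.equivMapOfInjective (tr g h) (tr_inj hgh hgh') M).finrank_eq]
    exact hM.two
  fy := by
    rintro _ ⟨L, hL, rfl⟩
    obtain ⟨c, hc⟩ := hM.fy L hL
    refine ⟨c, fun j => ?_⟩
    have h1 : ∑ i, tr g h L j i * (![1, 0, 0] : Fin 3 → K) i = tr g h L j 0 := by
      rw [Fin.sum_univ_three]
      simp
    rw [h1, tr_apply]
    have h2 : ∀ p : Fin 3, ∑ r, L p r * g 0 r = c * g 0 p := by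
      intro p
      rw [← hy]
      exact hc p
    have h3 : ∑ p, h p j * ∑ r, L p r * g 0 r = c * mm g h 0 j := by
      unfold mm
      rw [Finset.mul_sum]
      refine Finset.sum_congr rfl fun p _ => ?_
      rw [h2]
      ring
    rw [h3, hgh']
    congr 1
    fin_cases j <;> simp [one3]
  fq := by
    rintro _ ⟨L, hL, rfl⟩
    obtain ⟨c, hc⟩ := hM.fq L hL
    refine ⟨c, ?_⟩
    have h1 := ssub_af (tr_eq hgh L) q
    rw [hc, map_mul, H65.ssub_C, hq, af_C_mul] at h1
    have h2 : (C a : MvPolynomial (Fin 3) K) ≠ 0 := by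
      rw [Ne, C_eq_zero]
      exact ha
    refine mul_left_cancel₀ h2 ?_
    rw [← h1]
    ring
  ff := by
    rintro _ ⟨L, hL, rfl⟩
    obtain ⟨b, hb, hb2⟩ := mem_mulS.1 (hM.ff L hL)
    rw [← ssub_af (tr_eq hgh L) f, ← hb2, map_mul, hq]
    refine mem_mulS.2 ⟨C a * ssub g b, ?_, by ring⟩
    have h1 := (isHomogeneous_C (Fin 3) a).mul (H65.ssub_hom g hb)
    rwa [zero_add] at h1

theorem key {q f : MvPolynomial (Fin 3) K} [CharZero K] [IsAlgClosed K] {y : Fin 3 → K}
    (q0 : MvPolynomial (Fin 3) ℤ) (hN : NormqStatement q0)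
    (hf : f.IsHomogeneous 6) (hyf : eval y f = 0)
    (hz : ∀ z : MvPolynomial (Fin 3) K, z.IsHomogeneous 1 → z ≠ 0 → f ∉ mulS z 5)
    (M : Submodule K (Fin 3 → Fin 3 → K)) (hM : Stb q f y M) (g : Fin 3 → Fin 3 → K)
    (hg : LinearIndependent K g) (hy : y = g 0) (a : K) (ha : a ≠ 0)
    (hq : ssub g q = C a * MvPolynomial.map (Int.castRingHom K) q0) :
    ∃ (g : Fin 3 → Fin 3 → K) (q0 f0 : MvPolynomial (Fin 3) ℤ) (y0 : Fin 3 → ℤ) (a b : K),
      Cfg q f y g q0 f0 y0 a b := by
  obtain ⟨h, h1, h2⟩ := exists_inv hg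
  have hf' : (ssub g f).IsHomogeneous 6 := H65.ssub_hom g hf
  have e0 : ∀ j, ∑ i, (![1, 0, 0] : Fin 3 → K) i * g i j = g 0 j := by
    intro j
    rw [Fin.sum_univ_three]
    simp
  have hc : coeff (Finsupp.single 0 6) (ssub g f) = 0 := by
    rw [coeff_eval hf', eval_ssub3]
    simp only [e0]
    rw [← hyf, hy]
  have hback : ∀ F : MvPolynomial (Fin 3) K, ssub h (ssub g F) = F := by
    intro F
    rw [ssub_ssub, h2, ssub_one]
  have hforth : ∀ F : MvPolynomial (Fin 3) K, ssub g (ssub h F) = F := by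
    intro F
    rw [ssub_ssub, h1, ssub_one]
  have hz' : ∀ z : MvPolynomial (Fin 3) K, z.IsHomogeneous 1 → z ≠ 0 →
      ssub g f ∉ mulS z 5 := by
    intro z hz1 hz0 hm
    obtain ⟨b, hb, hb2⟩ := mem_mulS.1 hm
    refine hz (ssub h z) (H65.ssub_hom h hz1) ?_ (mem_mulS.2 ⟨ssub h b, H65.ssub_hom h hb, ?_⟩)
    · intro h0
      apply hz0
      rw [← hforth z, h0, map_zero]
    · rw [← map_mul, hb2, hback]
  obtain ⟨g', f0, y0, a', b, hC⟩ := hN K (ssub g f) hf' hc hz' _ (stb_tr hM h2 h1 hy ha hq)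
  refine ⟨mm g' g, q0, f0, y0, a * a', b, li_mm hg hC.gi, mul_ne_zero ha hC.a0, ?_, ?_, ?_⟩
  · rw [← ssub_ssub, hq, map_mul, H65.ssub_C, hC.hq, C_mul, mul_assoc]
  · rw [← ssub_ssub]
    exact hC.hf
  · intro j
    rw [hy, ← e0 j]
    have h3 : ∀ i : Fin 3, (![1, 0, 0] : Fin 3 → K) i * g i j =
        b * ∑ k, (y0 k : K) * (g' k i * g i j) := by
      intro i
      rw [hC.hy i, mul_assoc, Finset.sum_mul]
      congr 1
      refine Finset.sum_congr rfl fun k _ => ?_
      ring
    rw [Finset.sum_congr rfl fun i _ => h3 i, ← Finset.mul_sum, Finset.sum_comm]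
    congr 1
    refine Finset.sum_congr rfl fun k _ => ?_
    unfold mm
    rw [Finset.mul_sum]

end

/-- Row NORM. -/
theorem norm : NormStatement := by
  intro hQ h1 h2 h3 h4 K _ _ _ q f y hq hq0 hf hy hyq hyf hz M hM
  obtain ⟨g, hg, hyg, a, ha, hc⟩ := hQ K q y hq hq0 hy hyq
  rcases hc with hc | hc | hc | hc
  · refine key _ h1 hf hyf hz M hM g hg hyg a ha ?_
    simpa using hc
  · refine key _ h2 hf hyf hz M hM g hg hyg a ha ?_
    simpa using hc
  · refine key _ h3 hf hyf hz M hM g hg hyg a ha ?_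
    simpa using hc
  · refine key _ h4 hf hyf hz M hM g hg hyg a ha ?_
    simpa using hc

end Pool.Agent.T2.H32
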